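import Mathlib
import Pool.Agent.V11275.Braid2

namespace Pool.Agent.Results.MP_de0ecf_co.DiamEqDim

open Pool.V11275.Braid

variable {B : Type*}

/-- The Coxeter matrix is simply laced. -/
def SimplyLaced (M : CoxeterMatrix B) : Prop :=
  ∀ s t : B, s ≠ t → M s t = 2 ∨ M s t = 3

/-- The Coxeter matrix is triangle-free. -/
def TriangleFree (M : CoxeterMatrix B) : Prop :=
  ¬ ∃ s t u : B, s ≠ t ∧ t ≠ u ∧ s ≠ u ∧ M s t = 3 ∧ M t u = 3 ∧ M s u = 3

/-- A single braid move `sts → tst` with `m(s,t) = 3`. -/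
def BraidMove (M : CoxeterMatrix B) (β γ : List B) : Prop :=
  ∃ (x y : List B) (s t : B), M s t = 3 ∧ β = x ++ [s, t, s] ++ y ∧ γ = x ++ [t, s, t] ++ y

/-- The braid class of a word. -/
def braidClass (M : CoxeterMatrix B) (α : List B) : Set (List B) :=
  {β | Relation.ReflTransGen (BraidMove M) α β}

lemma BraidMove.symm {M : CoxeterMatrix B} {β γ : List B} (h : BraidMove M β γ) :
    BraidMove M γ β := by
  obtain ⟨x, y, s, t, h1, h2, h3⟩ := h
  exact ⟨x, y, t, s, by rw [M.symmetric]; exact h1, h3, h2⟩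

lemma BraidMove.ne {M : CoxeterMatrix B} {β γ : List B} (h : BraidMove M β γ) : β ≠ γ := by
  obtain ⟨x, y, s, t, h1, rfl, rfl⟩ := h
  intro h
  have : s = t ∧ t = s ∧ s = t := by simpa using h
  obtain ⟨rfl, _⟩ := this
  rw [M.diagonal] at h1
  omega

/-- The braid graph: vertices are the words of the braid class, two words being adjacent when a
single braid move turns one into the other. -/
def braidGraph (M : CoxeterMatrix B) (α : List B) : SimpleGraph (braidClass M α) where
  Adj β γ := BraidMove M β.1 γ.1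
  symm := ⟨fun _ _ h => h.symm⟩
  loopless := ⟨fun _ h => h.ne rfl⟩

/-- The word `β` reads `sts` with `m(s,t) = 3` at the positions `i, i+1, i+2`
(positions counted from `0`). -/
def IsShadowAt (M : CoxeterMatrix B) (β : List B) (i : ℕ) : Prop :=
  ∃ s t : B, M s t = 3 ∧ β[i]? = some s ∧ β[i + 1]? = some t ∧ β[i + 2]? = some s

/-- The set of braid shadows `{i, i+1, i+2}` of the words in the braid class of `α`. -/
def shadows (M : CoxeterMatrix B) (α : List B) : Set (Finset ℕ) :=
  {T | ∃ i : ℕ, T = {i, i + 1, i + 2} ∧ ∃ β ∈ braidClass M α, IsShadowAt M β i}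

/-- The dimension of a word: the number of braid shadows of its braid class. -/
noncomputable def dim (M : CoxeterMatrix B) (α : List B) : ℕ := (shadows M α).ncard

/-! ### Transfer to words indexed by the integers -/

/-- A finite word as a function on the integers. -/
def F (β : List B) (k : ℤ) : Option B := if 0 ≤ k then β[k.toNat]? else none

/-- The bond relation on letters. -/
def R (M : CoxeterMatrix B) (a b : Option B) : Prop :=
  ∃ s t : B, a = some s ∧ b = some t ∧ M s t = 3

lemma F_nat (β : List B) (n : ℕ) : F β (n : ℤ) = β[n]? := by simp [F]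

lemma F_neg (β : List B) {k : ℤ} (hk : k < 0) : F β k = none := by
  unfold F; rw [if_neg (by omega)]

lemma F_injective : Function.Injective (F : List B → ℤ → Option B) := by
  intro β γ h
  apply List.ext_getElem?
  intro n
  rw [← F_nat, ← F_nat, h]

lemma R_symm (M : CoxeterMatrix B) (a b : Option B) (h : R M a b) : R M b a := by
  obtain ⟨s, t, h1, h2, h3⟩ := h
  exact ⟨t, s, h2, h1, by rw [M.symmetric]; exact h3⟩

lemma R_irrefl (M : CoxeterMatrix B) (a : Option B) : ¬ R M a a := by
  rintro ⟨s, t, h1, h2, h3⟩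
  rw [h1] at h2
  have : s = t := by simpa using h2
  subst this
  rw [M.diagonal] at h3
  omega

lemma R_tri {M : CoxeterMatrix B} (hM : TriangleFree M) (a b c : Option B) (h1 : R M a b)
    (h2 : R M b c) (h3 : R M a c) : False := by
  obtain ⟨s, t, rfl, rfl, h4⟩ := h1
  obtain ⟨t', u, h5, rfl, h6⟩ := h2
  obtain ⟨s', u', h7, h8, h9⟩ := h3
  rw [Option.some_inj] at h5 h7 h8
  subst h5 h7 h8
  have ne : ∀ x y : B, M x y = 3 → x ≠ y := by
    rintro x y h rfl
    rw [M.diagonal] at h
    omega
  exact hM ⟨s, t, u, ne _ _ h4, ne _ _ h6, ne _ _ h9, h4, h6, h9⟩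

lemma getElem?_word (x y : List B) (s t u : B) (n : ℕ) :
    (x ++ [s, t, u] ++ y)[n]? =
      if n < x.length then x[n]? else if n = x.length then some s
      else if n = x.length + 1 then some t else if n = x.length + 2 then some u
      else y[n - x.length - 3]? := by
  rw [List.append_assoc]
  by_cases h : n < x.length
  · rw [if_pos h, List.getElem?_append_left h]
  · rw [if_neg h, List.getElem?_append_right (by omega)]
    obtain ⟨m, rfl⟩ : ∃ m, n = x.length + m := ⟨n - x.length, by omega⟩
    rw [Nat.add_sub_cancel_left]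
    match m with
    | 0 => simp
    | 1 => simp
    | 2 => simp
    | m + 3 =>
      rw [if_neg (by omega), if_neg (by omega), if_neg (by omega)]
      simp

lemma move_step {M : CoxeterMatrix B} {β γ : List B} (h : BraidMove M β γ) :
    ∃ i, Step (R M) (F β) (F γ) i := by
  obtain ⟨x, y, s, t, h1, rfl, rfl⟩ := h
  refine ⟨x.length, ?_⟩
  have e1 : ((x.length : ℤ) + 1) = ((x.length + 1 : ℕ) : ℤ) := by push_cast; ring
  have e2 : ((x.length : ℤ) + 2) = ((x.length + 2 : ℕ) : ℤ) := by push_cast; ring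
  unfold Step
  rw [e1, e2]
  simp only [F_nat, getElem?_word]
  refine ⟨⟨s, t, by simp, by simp, h1⟩, by simp, by simp, by simp, by simp, ?_⟩
  intro k h0 h1 h2
  by_cases hk : 0 ≤ k
  · obtain ⟨n, rfl⟩ := Int.eq_ofNat_of_zero_le hk
    have h0' : n ≠ x.length := by
      intro h; exact h0 (by rw [h])
    have h1' : n ≠ x.length + 1 := by
      intro h; exact h1 (by rw [h])
    have h2' : n ≠ x.length + 2 := by
      intro h; exact h2 (by rw [h])
    rw [F_nat, F_nat, getElem?_word, getElem?_word]
    simp only [if_neg h0', if_neg h1', if_neg h2']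
  · rw [F_neg _ (by omega), F_neg _ (by omega)]

lemma split_word {β : List B} {n : ℕ} {s t u : B} (h0 : β[n]? = some s)
    (h1 : β[n + 1]? = some t) (h2 : β[n + 2]? = some u) :
    β = β.take n ++ [s, t, u] ++ β.drop (n + 3) := by
  have hn : n + 2 < β.length := by
    by_contra h
    rw [List.getElem?_eq_none (by omega)] at h2
    simp at h2
  have hl : (β.take n).length = n := by
    rw [List.length_take]; omega
  apply List.ext_getElem?
  intro k
  rw [getElem?_word, hl]
  by_cases a0 : k < n
  · rw [if_pos a0, List.getElem?_take_of_lt a0]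
  · rw [if_neg a0]
    by_cases a1 : k = n
    · rw [if_pos a1, a1, h0]
    · rw [if_neg a1]
      by_cases a2 : k = n + 1
      · rw [if_pos a2, a2, h1]
      · rw [if_neg a2]
        by_cases a3 : k = n + 2
        · rw [if_pos a3, a3, h2]
        · rw [if_neg a3, List.getElem?_drop]
          congr 1
          omega

lemma step_move {M : CoxeterMatrix B} {β : List B} {g : ℤ → Option B} {i : ℤ}
    (h : Step (R M) (F β) g i) : ∃ γ, BraidMove M β γ ∧ F γ = g := by
  obtain ⟨s, t, a1, a2, a3⟩ := h.1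
  have a4 := h.2.1
  have hi : 0 ≤ i := by
    by_contra hi
    rw [F_neg _ (by omega)] at a1
    simp at a1
  obtain ⟨n, rfl⟩ := Int.eq_ofNat_of_zero_le hi
  have e1 : ((n : ℤ) + 1) = ((n + 1 : ℕ) : ℤ) := by push_cast; ring
  have e2 : ((n : ℤ) + 2) = ((n + 2 : ℕ) : ℤ) := by push_cast; ring
  rw [a1, e2] at a4
  rw [e1] at a2
  rw [F_nat] at a1 a2 a4
  have hβ := split_word a1 a2 a4
  have hn : n + 2 < β.length := by
    by_contra h
    rw [List.getElem?_eq_none (by omega)] at a4
    simp at a4
  have hl : (β.take n).length = n := by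
    rw [List.length_take]; omega
  have hmv : BraidMove M β (β.take n ++ [t, s, t] ++ β.drop (n + 3)) :=
    ⟨β.take n, β.drop (n + 3), s, t, a3, hβ, rfl⟩
  refine ⟨_, hmv, ?_⟩
  obtain ⟨j, hj⟩ := move_step hmv
  -- the two steps happen at the same position
  have : Step (R M) (F β) (F (β.take n ++ [t, s, t] ++ β.drop (n + 3))) (n : ℤ) := by
    refine ⟨h.1, h.2.1, ?_, ?_, ?_, ?_⟩
    · rw [e1, F_nat, F_nat, a2, getElem?_word, hl]; simp
    · rw [e1, F_nat, F_nat, a1, getElem?_word, hl]; simp
    · rw [e1, e2, F_nat, F_nat, a2, getElem?_word, hl]; simp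
    · intro k h0 h1 h2
      by_cases hk : 0 ≤ k
      · obtain ⟨m, rfl⟩ := Int.eq_ofNat_of_zero_le hk
        have h0' : m ≠ n := by
          intro h; exact h0 (by rw [h])
        have h1' : m ≠ n + 1 := by
          intro h; exact h1 (by rw [h]; push_cast; ring)
        have h2' : m ≠ n + 2 := by
          intro h; exact h2 (by rw [h]; push_cast; ring)
        rw [F_nat, F_nat]
        conv_rhs => rw [hβ]
        rw [getElem?_word, getElem?_word, hl]
        simp only [if_neg h0', if_neg h1', if_neg h2']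
      · rw [F_neg _ (by omega), F_neg _ (by omega)]
  exact this.unique h

section Reduced

variable {W : Type*} [Group W] {M : CoxeterMatrix B} (cs : CoxeterSystem M W)

lemma move_length {β γ : List B} (h : BraidMove M β γ) : γ.length = β.length := by
  obtain ⟨x, y, s, t, h1, rfl, rfl⟩ := h
  simp

lemma move_prod {β γ : List B} (h : BraidMove M β γ) : cs.wordProd γ = cs.wordProd β := by
  obtain ⟨x, y, s, t, h1, rfl, rfl⟩ := h
  have key : cs.wordProd [s, t, s] = cs.wordProd [t, s, t] := by
    have h := cs.wordProd_braidWord_eq t s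
    have h2 : M t s = 3 := by rw [M.symmetric]; exact h1
    unfold CoxeterSystem.braidWord at h
    rw [h1, h2] at h
    simpa [CoxeterSystem.alternatingWord] using h
  rw [cs.wordProd_append, cs.wordProd_append, cs.wordProd_append, cs.wordProd_append, key]

lemma class_length {α β : List B} (h : β ∈ braidClass M α) : β.length = α.length := by
  induction h with
  | refl => rfl
  | tail _ h ih => rw [move_length h, ih]

lemma class_prod {α β : List B} (h : β ∈ braidClass M α) : cs.wordProd β = cs.wordProd α := by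
  induction h with
  | refl => rfl
  | tail _ h ih => rw [move_prod cs h, ih]

lemma class_reduced {α β : List B} (hα : cs.IsReduced α) (h : β ∈ braidClass M α) :
    cs.IsReduced β := by
  unfold CoxeterSystem.IsReduced at hα ⊢
  rw [class_prod cs h, class_length h, hα]

lemma good_of_reduced {β : List B} (hβ : cs.IsReduced β) : Good (R M) (F β) := by
  intro i hR h2 h3
  obtain ⟨s, t, a1, a2, a3⟩ := hR
  have hi : 0 ≤ i := by
    by_contra hi
    rw [F_neg _ (by omega)] at a1
    simp at a1
  obtain ⟨n, rfl⟩ := Int.eq_ofNat_of_zero_le hi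
  have e1 : ((n : ℤ) + 1) = ((n + 1 : ℕ) : ℤ) := by push_cast; ring
  have e2 : ((n : ℤ) + 2) = ((n + 2 : ℕ) : ℤ) := by push_cast; ring
  have e3 : ((n : ℤ) + 3) = ((n + 3 : ℕ) : ℤ) := by push_cast; ring
  rw [a1, e2] at h2
  rw [a2, e3] at h3
  rw [e1] at a2
  rw [F_nat] at a1 a2 h2 h3
  have hn : n + 3 < β.length := by
    by_contra h
    rw [List.getElem?_eq_none (by omega)] at h3
    simp at h3
  have h4 : (β.drop n).take 4 = CoxeterSystem.alternatingWord s t 4 := by
    have : CoxeterSystem.alternatingWord s t 4 = [s, t, s, t] := by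
      simp [CoxeterSystem.alternatingWord]
    rw [this]
    apply List.ext_getElem?
    intro k
    rw [List.getElem?_take]
    match k with
    | 0 => simp [a1]
    | 1 => simp [a2]
    | 2 => simp [h2]
    | 3 => simp [h3]
    | k + 4 => simp
  have h5 := (hβ.drop n).take 4
  rw [h4] at h5
  exact cs.not_isReduced_alternatingWord s t (by rw [a3]; norm_num) (by rw [a3]; norm_num) h5

end Reduced

lemma path_of_class {M : CoxeterMatrix B} {α β : List B} (h : β ∈ braidClass M α) :
    ∃ n, PathLen (R M) (F α) (F β) n := by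
  unfold braidClass at h
  rw [Set.mem_ofPred_eq] at h
  induction h using Relation.ReflTransGen.head_induction_on with
  | refl => exact ⟨0, PathLen.refl _⟩
  | head hm _ ih =>
    obtain ⟨n, hn⟩ := ih
    obtain ⟨i, hi⟩ := move_step hm
    exact ⟨n + 1, PathLen.step hi hn⟩

lemma path_of_walk {M : CoxeterMatrix B} {α : List B} {a b : braidClass M α}
    (w : (braidGraph M α).Walk a b) : PathLen (R M) (F a.1) (F b.1) w.length := by
  induction w with
  | nil => exact PathLen.refl _
  | cons h p ih =>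
    obtain ⟨i, hi⟩ := move_step h
    rw [SimpleGraph.Walk.length_cons]
    exact PathLen.step hi ih

lemma walk_of_path {M : CoxeterMatrix B} {α : List B} {f g : ℤ → Option B} {n : ℕ}
    (h : PathLen (R M) f g n) : ∀ a b : braidClass M α, F a.1 = f → F b.1 = g →
    ∃ w : (braidGraph M α).Walk a b, w.length = n := by
  induction h with
  | refl f =>
    intro a b h1 h2
    have : a = b := Subtype.ext (F_injective (h1.trans h2.symm))
    subst this
    exact ⟨SimpleGraph.Walk.nil, rfl⟩
  | @step f g h i n hs _ ih =>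
    intro a b h1 h2
    subst h1
    obtain ⟨γ, hγ, hγ'⟩ := step_move hs
    have hc : γ ∈ braidClass M α := by
      have := a.2
      unfold braidClass at this ⊢
      rw [Set.mem_ofPred_eq] at this ⊢
      exact this.tail hγ
    obtain ⟨w, hw⟩ := ih ⟨γ, hc⟩ b hγ' h2
    have hadj : (braidGraph M α).Adj a ⟨γ, hc⟩ := hγ
    refine ⟨SimpleGraph.Walk.cons hadj w, ?_⟩
    rw [SimpleGraph.Walk.length_cons, hw]

/-- The shadow set is finite, the braid graph is connected, and its diameter equals the
dimension, for every reduced word in a Coxeter system of type `Λ`. -/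
theorem result {W : Type*} [Group W] (M : CoxeterMatrix B) (cs : CoxeterSystem M W)
    (_hsl : SimplyLaced M) (htf : TriangleFree M) (α : List B) (hα : cs.IsReduced α) :
    (shadows M α).Finite ∧ (braidGraph M α).Connected ∧
      (braidGraph M α).ediam = (dim M α : ℕ∞) ∧ (braidGraph M α).diam = dim M α := by
  classical
  obtain ⟨C, hC1, hC2, hC3⟩ := main (R_symm M) (R_irrefl M) (R_tri htf)
    (F '' braidClass M α) (F α) ⟨α, Relation.ReflTransGen.refl, rfl⟩
    (by
      rintro _ ⟨β, hβ, rfl⟩ g i hs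
      obtain ⟨γ, hγ, hγ'⟩ := step_move hs
      refine ⟨γ, ?_, hγ'⟩
      unfold braidClass at hβ ⊢
      rw [Set.mem_ofPred_eq] at hβ ⊢
      exact hβ.tail hγ)
    (by
      rintro _ ⟨β, hβ, rfl⟩
      exact path_of_class hβ)
    (by
      rintro _ ⟨β, hβ, rfl⟩
      exact good_of_reduced cs (class_reduced cs hα hβ))
    (Finset.Ico 0 (α.length : ℤ))
    (by
      rintro _ ⟨β, hβ, rfl⟩ i ⟨s, t, a1, _, _⟩
      have hi : 0 ≤ i := by
        by_contra hi
        rw [F_neg _ (by omega)] at a1
        simp at a1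
      obtain ⟨n, rfl⟩ := Int.eq_ofNat_of_zero_le hi
      rw [F_nat] at a1
      have : n < β.length := by
        by_contra h
        rw [List.getElem?_eq_none (by omega)] at a1
        simp at a1
      rw [class_length hβ] at this
      rw [Finset.mem_Ico]
      exact ⟨hi, by exact_mod_cast this⟩)
  -- the shadow set and `C`
  have hS : ∀ i : ℕ, (∃ β ∈ braidClass M α, IsShadowAt M β i) ↔ (i : ℤ) ∈ C := by
    intro i
    have e1 : ((i : ℤ) + 1) = ((i + 1 : ℕ) : ℤ) := by push_cast; ring
    have e2 : ((i : ℤ) + 2) = ((i + 2 : ℕ) : ℤ) := by push_cast; ring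
    rw [hC1]
    constructor
    · rintro ⟨β, hβ, s, t, b1, b2, b3, b4⟩
      refine ⟨F β, ⟨β, hβ, rfl⟩, ⟨s, t, ?_, ?_, b1⟩, ?_⟩
      · rw [F_nat, b2]
      · rw [e1, F_nat, b3]
      · rw [e2, F_nat, F_nat, b4, b2]
    · rintro ⟨_, ⟨β, hβ, rfl⟩, ⟨s, t, b1, b2, b3⟩, b4⟩
      rw [b1, e2, F_nat] at b4
      rw [F_nat] at b1
      rw [e1, F_nat] at b2
      exact ⟨β, hβ, s, t, b3, b1, b2, b4⟩
  have hCnn : ∀ i ∈ C, 0 ≤ i := by
    intro i hi
    rw [hC1] at hi
    obtain ⟨_, ⟨β, _, rfl⟩, ⟨s, t, b1, _, _⟩, _⟩ := hi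
    by_contra h
    rw [F_neg _ (by omega)] at b1
    simp at b1
  have hset : shadows M α = ((C.image (fun i : ℤ =>
      ({i.toNat, i.toNat + 1, i.toNat + 2} : Finset ℕ)) : Finset (Finset ℕ)) :
        Set (Finset ℕ)) := by
    ext T
    rw [Finset.coe_image]
    unfold shadows
    rw [Set.mem_ofPred_eq, Set.mem_image]
    constructor
    · rintro ⟨i, rfl, hi⟩
      exact ⟨(i : ℤ), (hS i).1 hi, by simp⟩
    · rintro ⟨i, hi, rfl⟩
      have := hCnn i hi
      refine ⟨i.toNat, rfl, (hS _).2 ?_⟩
      rw [Int.toNat_of_nonneg this]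
      exact hi
  have hinj : ∀ n m : ℕ, ({n, n + 1, n + 2} : Finset ℕ) = {m, m + 1, m + 2} → n = m := by
    intro n m h
    have h1 : n ∈ ({m, m + 1, m + 2} : Finset ℕ) := by rw [← h]; simp
    have h2 : m ∈ ({n, n + 1, n + 2} : Finset ℕ) := by rw [h]; simp
    simp only [Finset.mem_insert, Finset.mem_singleton] at h1 h2
    omega
  have hcard : dim M α = C.card := by
    unfold dim
    rw [hset, Set.ncard_coe_finset, Finset.card_image_of_injOn]
    intro i hi j hj hij
    have h1 := hCnn i hi
    have h2 := hCnn j hj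
    have := hinj _ _ hij
    omega
  have hfin : (shadows M α).Finite := by
    rw [hset]; exact Finset.finite_toSet _
  have hconn : (braidGraph M α).Connected := by
    have : Nonempty (braidClass M α) := ⟨⟨α, Relation.ReflTransGen.refl⟩⟩
    refine ⟨?_⟩
    intro a b
    obtain ⟨n, _, hn⟩ := hC2 (F a.1) ⟨a.1, a.2, rfl⟩ (F b.1) ⟨b.1, b.2, rfl⟩
    obtain ⟨w, _⟩ := walk_of_path hn a b rfl rfl
    exact ⟨w⟩
  have hed : (braidGraph M α).ediam = (dim M α : ℕ∞) := by
    rw [hcard]
    apply le_antisymm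
    · apply SimpleGraph.ediam_le_of_edist_le
      intro a b
      obtain ⟨n, hnC, hn⟩ := hC2 (F a.1) ⟨a.1, a.2, rfl⟩ (F b.1) ⟨b.1, b.2, rfl⟩
      obtain ⟨w, hw⟩ := walk_of_path hn a b rfl rfl
      calc (braidGraph M α).edist a b ≤ (w.length : ℕ∞) := SimpleGraph.edist_le w
        _ ≤ (C.card : ℕ∞) := by rw [hw]; exact_mod_cast hnC
    · obtain ⟨_, ⟨β, hβ, rfl⟩, _, ⟨γ, hγ, rfl⟩, hlow⟩ := hC3
      obtain ⟨w, hw⟩ := hconn.exists_walk_length_eq_edist ⟨β, hβ⟩ ⟨γ, hγ⟩
      calc (C.card : ℕ∞) ≤ (w.length : ℕ∞) := by exact_mod_cast hlow _ (path_of_walk w)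
        _ = (braidGraph M α).edist ⟨β, hβ⟩ ⟨γ, hγ⟩ := hw
        _ ≤ _ := SimpleGraph.edist_le_ediam
  refine ⟨hfin, hconn, hed, ?_⟩
  unfold SimpleGraph.diam
  rw [hed]
  rfl

end Pool.Agent.Results.MP_de0ecf_co.DiamEqDim
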